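import Pool.Agent.V1172.GC.Fin

/-!
# Stein's restriction conjecture in `ℝ³`: the endpoint and the scaling line for densities with few
oscillations along great circles

Let `σ` be the surface measure of the unit sphere of `ℝ³`. Two classes of densities, possibly
unbounded, are considered.

* One density: on every open great semicircle the superlevel sets of the positive and negative parts
  of `Re g` and `Im g` are unions of at most `N` arcs.
* Superpositions `∑_j e^{i⟨η_j, x⟩} f_j(x) m_j(x)` with arbitrary frequencies `η_j`, where on every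
  open great semicircle the superlevel sets of `f_j ≥ 0` are unions of at most `N_j` arcs and `m_j` is a
  complex function with `|m_j| ≤ 1` and variation at most `N_j`. (For instance `f_j` constant: bounded
  densities of bounded variation along the great semicircles.)

For them the conjecture is proved at the endpoint `p = 3`, with the norm of weak `L³`, and on the
whole scaling line `p > 3`, `q = p/(p-2)`:

`|{|(g dσ)^| > λ}| ≤ C N λ⁻³ ‖g‖_3³`, `‖(g dσ)^‖_p ≤ C (N/(p-3))^{1/p} ‖g‖_q`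

with an absolute constant `C`, and the corresponding bounds for superpositions.
-/

set_option autoImplicit false

namespace Pool.Agent.Results.MP_6cbfb8_an.GreatCircleArcs

open MeasureTheory Metric Set
open scoped ENNReal NNReal RealInnerProductSpace

/-- The space `ℝ³`. -/
abbrev R3 : Type := EuclideanSpace ℝ (Fin 3)

/-- Surface measure on the unit sphere of `ℝ³`. -/
noncomputable def sigma : Measure (sphere (0 : R3) 1) := (volume : Measure R3).toSphere

/-- The Fourier transform of the measure `g dσ`. -/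
noncomputable def ft (g : sphere (0 : R3) 1 → ℂ) (ξ : R3) : ℂ :=
  ∫ x, Complex.exp (-(2 * Real.pi * ⟪(x : R3), ξ⟫ : ℝ) * Complex.I) * g x ∂sigma

/-- `ω` and `v` are orthogonal unit vectors. -/
def Frame (ω v : R3) : Prop := ‖ω‖ = 1 ∧ ‖v‖ = 1 ∧ ⟪ω, v⟫ = 0

/-- The point at the angle `θ` on the great semicircle from `ω` through `v` to `-ω`. -/
noncomputable def arc (ω v : R3) (θ : ℝ) : R3 := Real.cos θ • ω + Real.sin θ • v

/-- `S` is a union of at most `N` intervals (of any kind, possibly empty). -/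
def Intervals (N : ℕ) (S : Set ℝ) : Prop :=
  ∃ I : Fin N → Set ℝ, (∀ i, (I i).OrdConnected) ∧ S = ⋃ i, I i

/-- The set `A` meets every open great semicircle in at most `N` arcs. -/
def Arcs (N : ℕ) (A : Set R3) : Prop :=
  ∀ ω v : R3, Frame ω v → Intervals N {θ | θ ∈ Ioo 0 Real.pi ∧ arc ω v θ ∈ A}

/-- On every open great semicircle the superlevel sets of the positive and negative parts of `Re g`
and `Im g` are unions of at most `N` arcs. -/
def FewArcs (N : ℕ) (g : sphere (0 : R3) 1 → ℂ) : Prop :=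
  ∀ s : ℝ, 0 ≤ s → Arcs N (Subtype.val '' {x | s < (g x).re}) ∧
    Arcs N (Subtype.val '' {x | (g x).re < -s}) ∧ Arcs N (Subtype.val '' {x | s < (g x).im}) ∧
    Arcs N (Subtype.val '' {x | (g x).im < -s})

/-- The data of a term `f m` of a superposition: on every open great semicircle the superlevel sets
of `f ≥ 0` are unions of at most `N` arcs and the variation of `m`, `|m| ≤ 1`, is at most `N`. -/
structure Term (N : ℕ) (f : R3 → ℝ≥0) (m : R3 → ℂ) : Prop where
  pos : 1 ≤ N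
  meas_f : Measurable f
  meas_m : Measurable m
  bound_m : ∀ x, ‖m x‖ ≤ 1
  arcs_f : ∀ s : ℝ≥0, Arcs N {x | s < f x}
  var_m : ∀ ω v : R3, Frame ω v → eVariationOn (fun θ => m (arc ω v θ)) (Ioo 0 Real.pi) ≤ N

/-- The norm of `f` in `L^q(σ)`. -/
noncomputable def lq (q : ℝ) (f : R3 → ℝ≥0) : ℝ≥0∞ :=
  (∫⁻ x : sphere (0 : R3) 1, (f x : ℝ≥0∞) ^ q ∂sigma) ^ (1 / q)

/-! ### Proofs -/

open Pool.Agent.V1172.GC
open Pool.Agent.H789R2.FR (sg T)

lemma lint_sg {F : R3 → ℝ≥0∞} (hF : Measurable F) :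
    ∫⁻ x, F x ∂(sg 3) = ∫⁻ x : sphere (0 : R3) 1, F x ∂sigma := by
  unfold sg
  rw [lintegral_map hF measurable_subtype_coe]
  rfl

lemma ft_T {g : sphere (0 : R3) 1 → ℂ} {G : R3 → ℂ} (hG : Measurable G)
    (hg : ∀ᵐ x ∂sigma, g x = G x) (ξ : R3) : ft g ξ = T G ((2 * Real.pi) • ξ) := by
  unfold ft T
  have m1 : Measurable fun w : R3 =>
      Complex.exp (-((⟪(2 * Real.pi) • ξ, w⟫ : ℝ) : ℂ) * Complex.I) * G w := by
    have h2 : Measurable fun z : R3 => (⟪(2 * Real.pi) • ξ, z⟫ : ℝ) :=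
      (by fun_prop : Continuous _).measurable
    exact (Complex.measurable_exp.comp ((Complex.measurable_ofReal.comp h2).neg.mul_const _)).mul hG
  simp only [sg]
  rw [integral_map measurable_subtype_coe.aemeasurable m1.aestronglyMeasurable]
  apply integral_congr_ae
  filter_upwards [hg] with x hx
  rw [hx, real_inner_smul_left, real_inner_comm]

lemma scale_le (F : R3 → ℝ≥0∞) (hF : Measurable F) :
    ∫⁻ ξ : R3, F ((2 * Real.pi) • ξ) ≤ ∫⁻ z, F z := by
  have h2pi : (2 * Real.pi) ≠ 0 := by positivity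
  have h3 := Measure.map_addHaar_smul (volume : Measure R3) h2pi
  have h4 : ∫⁻ x : R3, F x ∂(Measure.map ((2 * Real.pi) • · : R3 → R3) volume) =
      ∫⁻ ξ : R3, F ((2 * Real.pi) • ξ) := lintegral_map hF (measurable_const_smul _)
  rw [← h4, h3, lintegral_smul_measure, smul_eq_mul, finrank_euclideanSpace_fin,
    abs_of_nonneg (by positivity)]
  refine mul_le_of_le_one_left zero_le ?_
  rw [ENNReal.ofReal_le_one]
  apply inv_le_one_of_one_le₀
  apply one_le_pow₀
  linarith [Real.pi_gt_three]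

lemma vol_le {G : R3 → ℂ} (hG : Measurable G) {g : sphere (0 : R3) 1 → ℂ}
    (hg : ∀ᵐ x ∂sigma, g x = G x) (lam : ℝ) :
    volume {ξ | lam < ‖ft g ξ‖} ≤ volume {ξ | lam < ‖T G ξ‖} := by
  have hT : Measurable (T G) := Pool.Agent.H789R2.FR.T_meas hG
  have hS : MeasurableSet {ξ | lam < ‖T G ξ‖} := measurableSet_lt measurable_const hT.norm
  have h1 := scale_le ({ξ | lam < ‖T G ξ‖}.indicator 1) (measurable_one.indicator hS)
  rw [lintegral_indicator_one hS] at h1
  refine le_trans (le_of_eq ?_) h1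
  have hpre : MeasurableSet {ξ : R3 | lam < ‖ft g ξ‖} := by
    have : {ξ : R3 | lam < ‖ft g ξ‖} = (fun ξ : R3 => (2 * Real.pi) • ξ) ⁻¹' {ξ | lam < ‖T G ξ‖} := by
      ext ξ
      simp only [mem_ofPred_eq, mem_preimage, ft_T hG hg]
    rw [this]
    exact hS.preimage (measurable_const_smul _)
  rw [← lintegral_indicator_one hpre]
  refine lintegral_congr fun ξ => ?_
  simp only [indicator, mem_ofPred_eq, ft_T hG hg, Pi.one_apply]

lemma eL_le {G : R3 → ℂ} (hG : Measurable G) {g : sphere (0 : R3) 1 → ℂ}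
    (hg : ∀ᵐ x ∂sigma, g x = G x) {p : ℝ} (hp : 0 < p) :
    eLpNorm (ft g) (ENNReal.ofReal p) volume ≤ eLpNorm (T G) (ENNReal.ofReal p) volume := by
  have hT : Measurable (T G) := Pool.Agent.H789R2.FR.T_meas hG
  have hp0 : ENNReal.ofReal p ≠ 0 := by rw [ne_eq, ENNReal.ofReal_eq_zero]; linarith
  rw [eLpNorm_eq_lintegral_rpow_enorm_toReal hp0 ENNReal.ofReal_ne_top,
    eLpNorm_eq_lintegral_rpow_enorm_toReal hp0 ENNReal.ofReal_ne_top, ENNReal.toReal_ofReal hp.le]
  refine ENNReal.rpow_le_rpow ?_ (by positivity)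
  simp only [ft_T hG hg]
  exact scale_le (fun z => ‖T G z‖ₑ ^ p) (hT.enorm.pow_const p)

lemma atm_of {N : ℕ} {f : R3 → ℝ≥0} {m : R3 → ℂ} (h : Term N f m) : Atm N f m :=
  ⟨h.pos, h.meas_f, h.meas_m, h.bound_m, fun ω v h1 h2 h3 => h.var_m ω v ⟨h1, h2, h3⟩,
    fun s ω v h1 h2 h3 => h.arcs_f s ω v ⟨h1, h2, h3⟩⟩

lemma arc_norm {ω v : R3} (h : Frame ω v) (θ : ℝ) : ‖arc ω v θ‖ = 1 := by
  have h1 : ‖arc ω v θ‖ ^ 2 = 1 := by
    rw [arc, norm_add_sq_real, norm_smul, norm_smul, h.1, h.2.1, real_inner_smul_left,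
      real_inner_smul_right, h.2.2]
    simp only [Real.norm_eq_abs, mul_one, mul_zero, add_zero, sq_abs]
    exact Real.cos_sq_add_sin_sq θ
  nlinarith [norm_nonneg (arc ω v θ)]

/-- the superlevel sets of the parts of the extension -/
lemma md_of {N : ℕ} {g : sphere (0 : R3) 1 → ℂ} {G : R3 → ℂ} (hg : ∀ x : sphere (0 : R3) 1, G x = g x)
    (h : FewArcs N g) (j : Fin 4) : Md N (prt G j) := by
  intro s ω v h1 h2 h3
  have hF : Frame ω v := ⟨h1, h2, h3⟩
  obtain ⟨a0, a1, a2, a3⟩ := h s (NNReal.coe_nonneg s)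
  have key : ∀ (r : ℂ → ℝ) (A : Set R3), A = Subtype.val '' {x : sphere (0 : R3) 1 | (s : ℝ) < r (g x)} →
      Arcs N A → ∃ I : Fin N → Set ℝ, (∀ i, (I i).OrdConnected) ∧
        {θ | θ ∈ Ioo 0 Real.pi ∧ s < (r (G (Real.cos θ • ω + Real.sin θ • v))).toNNReal} = ⋃ i, I i := by
    intro r A hA hArc
    obtain ⟨I, hI, e⟩ := hArc ω v hF
    refine ⟨I, hI, ?_⟩
    rw [← e]
    ext θ
    simp only [mem_ofPred_eq]
    refine and_congr_right fun _ => ?_
    rw [Real.lt_toNNReal_iff_coe_lt, hA]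
    have hn : arc ω v θ ∈ sphere (0 : R3) 1 := by
      rw [mem_sphere_zero_iff_norm]
      exact arc_norm hF θ
    constructor
    · intro h4
      refine ⟨⟨arc ω v θ, hn⟩, ?_, rfl⟩
      show (s : ℝ) < r (g ⟨arc ω v θ, hn⟩)
      rw [← hg]
      exact h4
    · rintro ⟨x, hx, hxe⟩
      have h4 : (s : ℝ) < r (g x) := hx
      rw [← hg, hxe] at h4
      exact h4
  fin_cases j
  · exact key (fun z => z.re) _ rfl a0
  · refine key (fun z => -z.re) (Subtype.val '' {x | (g x).re < -(s : ℝ)}) ?_ a1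
    congr 1
    ext x
    simp only [mem_ofPred_eq]
    constructor <;> intro h <;> linarith
  · exact key (fun z => z.im) _ rfl a2
  · refine key (fun z => -z.im) (Subtype.val '' {x | (g x).im < -(s : ℝ)}) ?_ a3
    congr 1
    ext x
    simp only [mem_ofPred_eq]
    constructor <;> intro h <;> linarith

/-- a measurable representative of the sum -/
lemma rep {F : ℕ → R3 → ℂ} (hF : ∀ j, Measurable (F j))
    (hs : ∑' j, ∫⁻ x, ‖F j x‖ₑ ∂(sg 3) ≠ ∞) :
    ∃ G : R3 → ℂ, Measurable G ∧ ∀ᵐ x ∂(sg 3), G x = ∑' j, F j x := by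
  have h1 : ∫⁻ x, ∑' j, ‖F j x‖ₑ ∂(sg 3) ≠ ∞ := by
    rw [lintegral_tsum fun j => (hF j).enorm.aemeasurable]
    exact hs
  have h2 : ∀ᵐ x ∂(sg 3), ∑' j, ‖F j x‖ₑ < ∞ :=
    ae_lt_top (Measurable.tsum fun j => (hF j).enorm) h1
  have h3 : ∀ᵐ x ∂(sg 3), Filter.Tendsto (fun n => ∑ j ∈ Finset.range n, F j x) Filter.atTop
      (nhds (∑' j, F j x)) := by
    filter_upwards [h2] with x hx
    have h4 : Summable fun j => ‖F j x‖ := by
      have := ENNReal.summable_toReal hx.ne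
      refine this.congr fun j => ?_
      rw [toReal_enorm]
    exact h4.of_norm.hasSum.tendsto_sum_nat
  have h5 : AEMeasurable (fun x => ∑' j, F j x) (sg 3) :=
    aemeasurable_of_tendsto_metrizable_ae Filter.atTop
      (fun n => (Finset.measurable_sum _ fun j _ => hF j).aemeasurable) h3
  exact ⟨h5.mk _, h5.measurable_mk, h5.ae_eq_mk.symm⟩

lemma ae_sigma {P : R3 → Prop} (h : ∀ᵐ x ∂(sg 3), P x) : ∀ᵐ x : sphere (0 : R3) 1 ∂sigma, P x := by
  unfold sg at h
  exact ae_of_ae_map measurable_subtype_coe.aemeasurable h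

/-- **The endpoint and the scaling line of Stein's restriction conjecture in `ℝ³` for densities with
few arcs on great circles.** There is an absolute constant `C` such that:

1. For all `N ≥ 1` and all integrable densities `g` with at most `N` arcs on the great semicircles,
   `|{|(g dσ)^| > λ}| ≤ C N λ⁻³ ‖g‖_3³` for all `λ > 0`, and
   `‖(g dσ)^‖_p ≤ C (N/(p-3))^{1/p} ‖g‖_{p/(p-2)}` for all `p > 3`.
2. For all superpositions `g(x) = ∑_j e^{i⟨η_j, x⟩} f_j(x) m_j(x)`,
   `|{|(g dσ)^| > λ}| ≤ C (S/λ)³` for all `λ > 0` and all `S ≥ ∑_j N_j^{1/3} ‖f_j‖_3`, and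
   `‖(g dσ)^‖_p ≤ C (p-3)^{-1/p} ∑_j N_j^{1/p} ‖f_j‖_{p/(p-2)}` for all `p > 3`. -/
theorem result : ∃ C : ℝ, 0 < C ∧
    (∀ (N : ℕ) (g : sphere (0 : R3) 1 → ℂ), 1 ≤ N → Measurable g → Integrable g sigma →
      FewArcs N g →
      (∀ lam : ℝ, 0 < lam → volume {ξ | lam < ‖ft g ξ‖} ≤
        ENNReal.ofReal (C * N / lam ^ 3) * ∫⁻ x, ‖g x‖ₑ ^ 3 ∂sigma) ∧
      ∀ p : ℝ, 3 < p → eLpNorm (ft g) (ENNReal.ofReal p) volume ≤
        ENNReal.ofReal (C * (N / (p - 3)) ^ (1 / p)) *
          eLpNorm g (ENNReal.ofReal (p / (p - 2))) sigma) ∧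
    ∀ (η : ℕ → R3) (N : ℕ → ℕ) (f : ℕ → R3 → ℝ≥0) (m : ℕ → R3 → ℂ)
      (g : sphere (0 : R3) 1 → ℂ), (∀ j, Term (N j) (f j) (m j)) →
      (∀ᵐ x ∂sigma, g x = ∑' j, Complex.exp (((⟪η j, (x : R3)⟫ : ℝ) : ℂ) * Complex.I) *
        (((f j x : ℝ≥0) : ℂ) * m j x)) →
      (∀ S lam : ℝ, 0 < S → 0 < lam →
        ∑' j, (N j : ℝ≥0∞) ^ (1 / 3 : ℝ) * lq 3 (f j) ≤ ENNReal.ofReal S →
        volume {ξ | lam < ‖ft g ξ‖} ≤ ENNReal.ofReal (C * (S / lam) ^ 3)) ∧
      ∀ p : ℝ, 3 < p → eLpNorm (ft g) (ENNReal.ofReal p) volume ≤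
        ENNReal.ofReal (C * (1 / (p - 3)) ^ (1 / p)) *
          ∑' j, (N j : ℝ≥0∞) ^ (1 / p) * lq (p / (p - 2)) (f j) := by
  obtain ⟨C₁, hC₁, H₁⟩ := one_weak
  obtain ⟨C₂, hC₂, H₂⟩ := one_strong
  obtain ⟨C₃, hC₃, H₃⟩ := sum_weak
  obtain ⟨C₄, hC₄, H₄⟩ := sum_strong
  refine ⟨C₁ + C₂ + C₃ + C₄, by positivity, ?_, ?_⟩
  · intro N g hN hg hgi hfew
    set G : R3 → ℂ := Function.extend Subtype.val g 0 with hG
    have hGm : Measurable G :=
      (MeasurableEmbedding.subtype_coe isClosed_sphere.measurableSet).measurable_extend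
        hg measurable_zero
    have hGg : ∀ x : sphere (0 : R3) 1, G x = g x := fun x => by
      rw [hG, Subtype.val_injective.extend_apply]
    have hae : ∀ᵐ x ∂sigma, g x = G x := Filter.Eventually.of_forall fun x => (hGg x).symm
    have hfin : ∫⁻ x, ‖G x‖ₑ ∂(sg 3) ≠ ∞ := by
      rw [lint_sg hGm.enorm]
      simp only [hGg]
      exact hgi.hasFiniteIntegral.ne
    have hmd := md_of hGg hfew
    refine ⟨fun lam hlam => ?_, fun p hp => ?_⟩
    · refine (vol_le hGm hae lam).trans ((H₁ N G hN hGm hfin hmd lam hlam).trans ?_)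
      rw [lint_sg (hGm.enorm.pow_const 3)]
      simp only [hGg]
      gcongr
      linarith
    · have hp2 : 0 < p - 2 := by linarith
      have hp3 : 0 < p - 3 := by linarith
      have hq : 0 < p / (p - 2) := by positivity
      refine (eL_le hGm hae (by linarith)).trans ((H₂ N G hN hGm hfin hmd p hp).trans ?_)
      rw [lint_sg (hGm.enorm.pow_const _), eLpNorm_eq_lintegral_rpow_enorm_toReal
        (by rw [ne_eq, ENNReal.ofReal_eq_zero]; linarith) ENNReal.ofReal_ne_top,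
        ENNReal.toReal_ofReal hq.le]
      simp only [hGg]
      gcongr
      linarith
  · intro η N f m g hT hg
    have hA := fun j => atm_of (hT j)
    have hFm := fun j => mdl_meas (η j) (hT j).meas_f (hT j).meas_m
    have hnorm : ∀ (q : ℝ) (j : ℕ), lq q (f j) =
        (∫⁻ x, (f j x : ℝ≥0∞) ^ q ∂(sg 3)) ^ (1 / q) := fun q j => by
      rw [lq, lint_sg ((hT j).meas_f.coe_nnreal_ennreal.pow_const q)]
    have hrep : ∑' j, ∫⁻ x, f j x ∂(sg 3) ≠ ∞ → ∃ G : R3 → ℂ, Measurable G ∧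
        (∀ᵐ x ∂(sg 3), G x = ∑' j, mdl (η j) (f j) (m j) x) ∧ ∀ᵐ x ∂sigma, g x = G x := by
      intro hl1
      obtain ⟨G, hGm, hG⟩ := rep hFm (ne_top_of_le_ne_top hl1 (ENNReal.tsum_le_tsum fun j =>
        lintegral_mono fun x => mdl_enorm _ _ (hT j).bound_m x))
      refine ⟨G, hGm, hG, ?_⟩
      filter_upwards [hg, ae_sigma hG] with x h1 h2
      rw [h1, h2]
      rfl
    refine ⟨fun S lam hS hlam hSum => ?_, fun p hp => ?_⟩
    · simp only [hnorm] at hSum
      obtain ⟨G, hGm, hG1, hG2⟩ := hrep (sum_l1 (q := 3) (p := 3) (by norm_num) (by norm_num) hA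
        (ne_top_of_le_ne_top ENNReal.ofReal_ne_top hSum))
      refine (vol_le hGm hG2 lam).trans ((H₃ η N f m hA G hG1 S hS hSum lam hlam).trans ?_)
      apply ENNReal.ofReal_le_ofReal
      gcongr
      linarith
    · have hp0 : 0 < p := by linarith
      have hp2 : 0 < p - 2 := by linarith
      have hp3 : 0 < p - 3 := by linarith
      have hq1 : 1 ≤ p / (p - 2) := by rw [one_le_div hp2]; linarith
      simp only [hnorm]
      by_cases hne : ∑' j, (N j : ℝ≥0∞) ^ (1 / p) *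
          (∫⁻ x, (f j x : ℝ≥0∞) ^ (p / (p - 2)) ∂(sg 3)) ^ (1 / (p / (p - 2))) = ∞
      · rw [hne, ENNReal.mul_top]
        · exact le_top
        · rw [ne_eq, ENNReal.ofReal_eq_zero, not_le]
          positivity
      obtain ⟨G, hGm, hG1, hG2⟩ := hrep (sum_l1 (q := p / (p - 2)) (p := p) hq1 hp0 hA hne)
      refine (eL_le hGm hG2 hp0).trans ((H₄ η N f m hA G hG1 p hp).trans ?_)
      refine mul_le_mul' (ENNReal.ofReal_le_ofReal ?_) le_rfl
      gcongr
      linarith

end Pool.Agent.Results.MP_6cbfb8_an.GreatCircleArcs
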