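import Mathlib
import Pool.Agent.V1181.RModD
set_option autoImplicit false

/-!
# Stein's restriction conjecture: random modulations of the pieces of an arbitrary density

Let `g` be any measurable function on the unit sphere of `ℝ^n`, `n ≥ 2`, with `|g| ≤ 1`. Cut the
sphere into finitely many disjoint measurable pieces `θ_j` of surface measure at most
`A r^(-(n-1)/2)` (for instance caps of radius `r^(-1/2)`) and multiply `g` on the piece `θ_j` by
`exp(i r ω_j·x)`, where the vectors `ω_j` are independent Gaussian vectors: the Fourier transform of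
the part of `g dσ` on `θ_j` is translated by the vector `r ω_j`. We show that, with probability at
least `1 - exp(-t)`, the Fourier transform `F` of the new density satisfies

* `|F(ξ)| ≤ C (t + log r) r^(-(n-1)/2)` for all `|ξ| ≤ r^K`;
* `∫_{|ξ| < R} |F|^p ≤ C R (C (t + log r) r^(-(n-1)/2))^(p-2)` for all `1 ≤ R ≤ r^K` and `p ≥ 2`.

For `r = R` the last bound is `C' (t + log R)^(p-2) R^(1-(n-1)(p-2)/2)`, in particular it gives the
range `p > 2n/(n-1)` of the conjecture, and for `r = R^γ` it gives the range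
`p > 2 + 2/((n-1)γ)`; for `γ = 1/2` this is the range of the Stein-Tomas theorem.
-/

namespace Pool.Agent.Results.MP_6cbfb8_an.RandomModulations

open MeasureTheory Set Metric Complex
open scoped ENNReal RealInnerProductSpace

/-- `n`-dimensional space -/
abbrev E (n : ℕ) := EuclideanSpace ℝ (Fin n)

/-- surface measure of the unit sphere, as a measure on `ℝ^n` -/
noncomputable def sigma (n : ℕ) : Measure (E n) :=
  ((volume : Measure (E n)).toSphere).map Subtype.val

/-- the Fourier transform of the measure `g dσ`: `ξ ↦ ∫ exp(-i ξ·x) g(x) dσ(x)` -/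
noncomputable def ft {n : ℕ} (g : E n → ℂ) (ξ : E n) : ℂ :=
  ∫ x, Complex.exp (-((⟪ξ, x⟫ : ℝ) : ℂ) * I) * g x ∂(sigma n)

/-- the Gaussian probability measure on `ℝ^n` with density `π^(-n/2) exp(-|v|²)` -/
noncomputable def gaussian (n : ℕ) : Measure (E n) :=
  volume.withDensity fun v => ENNReal.ofReal (Real.pi ^ (-((n : ℝ) / 2)) * Real.exp (-‖v‖ ^ 2))

/-- the law of `m` independent Gaussian vectors of `ℝ^n` -/
noncomputable def law (n m : ℕ) : Measure (Fin m → E n) := Measure.pi fun _ => gaussian n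

/-- the density which is `exp(i r ω_j·x) g(x)` for `x` in the piece `θ_j`, and `0` outside all pieces -/
noncomputable def modulated {n m : ℕ} (r : ℝ) (θ : Fin m → Set (E n)) (g : E n → ℂ)
    (ω : Fin m → E n) (x : E n) : ℂ :=
  ∑ j, (θ j).indicator (fun x => Complex.exp (((r * ⟪ω j, x⟫ : ℝ) : ℂ) * I) * g x) x

/-- the bounds, for the density `h` -/
def Bounds {n : ℕ} (C K r t : ℝ) (h : E n → ℂ) : Prop :=
  (∀ ξ : E n, ‖ξ‖ ≤ r ^ K → ‖ft h ξ‖ ≤ C * (t + Real.log r) * r ^ (-(((n : ℝ) - 1) / 2))) ∧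
  ∀ R p : ℝ, 1 ≤ R → R ≤ r ^ K → 2 ≤ p →
    ∫⁻ ξ in ball (0 : E n) R, ‖ft h ξ‖ₑ ^ p ≤
      ENNReal.ofReal (C * R * (C * (t + Real.log r) * r ^ (-(((n : ℝ) - 1) / 2))) ^ (p - 2))

/-- For all `n ≥ 2`, `A` and `K` there is a constant `C` such that for all `r ≥ 2`, all disjoint
measurable sets `θ_1, …, θ_m` of surface measure at most `A r^(-(n-1)/2)`, all measurable `g` with
`|g| ≤ 1` and all `t ≥ 0` the bounds hold for the randomly modulated density with probability at
least `1 - exp(-t)`. -/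
theorem result (n : ℕ) (hn : 2 ≤ n) (A K : ℝ) :
    ∃ C : ℝ, 0 < C ∧ ∀ r : ℝ, 2 ≤ r →
      ∀ (m : ℕ) (θ : Fin m → Set (E n)), (∀ j, MeasurableSet (θ j)) →
      (∀ i j, i ≠ j → Disjoint (θ i) (θ j)) →
      (∀ j, sigma n (θ j) ≤ ENNReal.ofReal (A * r ^ (-(((n : ℝ) - 1) / 2)))) →
      ∀ g : E n → ℂ, Measurable g → (∀ x, ‖g x‖ ≤ 1) → ∀ t : ℝ, 0 ≤ t →
      law n m {ω | ¬ Bounds C K r t (modulated r θ g ω)} ≤ ENNReal.ofReal (Real.exp (-t)) := by
  obtain ⟨C1, hC1, h1⟩ := Pool.Agent.V1181.RMod.sup_tail n hn (max A 1) (max K 0)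
    (le_max_right _ _) (le_max_right _ _)
  obtain ⟨C2, hC2, h2⟩ := Pool.Agent.V1181.RMod.ball_L2 n hn
  have hfin : IsFiniteMeasure (sigma n) := Pool.Agent.H789R2.FR.sg_finite n
  have hprob : IsProbabilityMeasure (gaussian n) := Pool.Agent.V1181.RMod.gauss_prob n
  refine ⟨max C1 C2, lt_max_of_lt_left hC1, ?_⟩
  intro r hr m θ hθ hd hm g hg hb t ht
  have hr0 : 0 < r := by linarith
  have hr1 : 1 ≤ r := by linarith
  have hlog : 0 ≤ Real.log r := Real.log_nonneg hr1
  have hd' : Pairwise (Function.onFun Disjoint θ) := fun i j hij => hd i j hij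
  set β : ℝ := r ^ (-(((n : ℝ) - 1) / 2)) with hβ
  have hβ0 : 0 < β := by positivity
  have hm' : ∀ j, (sigma n).real (θ j) ≤ max A 1 * β := by
    intro j
    rw [measureReal_def]
    refine (ENNReal.toReal_mono ENNReal.ofReal_ne_top (hm j)).trans ?_
    rw [ENNReal.toReal_ofReal']
    refine max_le ?_ (by positivity)
    exact mul_le_mul_of_nonneg_right (le_max_left _ _) hβ0.le
  have h3 := h1 r hr m θ hθ hd' hm' g hg hb t ht
  have hKr : r ^ K ≤ r ^ (max K 0) := Real.rpow_le_rpow_of_exponent_le hr1 (le_max_left _ _)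
  have hsub : {ω : Fin m → E n | ¬ Bounds (max C1 C2) K r t (modulated r θ g ω)} ⊆
      {ω | ∃ ξ : E n, ‖ξ‖ ≤ r ^ (max K 0) ∧
        C1 * (t + Real.log r) * β < ‖ft (modulated r θ g ω) ξ‖} := by
    intro ω hω
    by_contra hcon
    apply hω
    simp only [mem_ofPred_eq, not_exists, not_and, not_lt] at hcon
    have hsup : ∀ ξ : E n, ‖ξ‖ ≤ r ^ K →
        ‖ft (modulated r θ g ω) ξ‖ ≤ max C1 C2 * (t + Real.log r) * β := by
      intro ξ hξ
      refine (hcon ξ (hξ.trans hKr)).trans ?_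
      refine mul_le_mul_of_nonneg_right ?_ hβ0.le
      exact mul_le_mul_of_nonneg_right (le_max_left _ _) (by linarith)
    refine ⟨hsup, ?_⟩
    intro R p hR hRK hp
    have h4 := h2 (modulated r θ g ω) (Pool.Agent.V1181.RMod.md_meas hθ hg ω)
      (Pool.Agent.V1181.RMod.md_norm hd' hb ω) R (by linarith)
    have h5 : ∫⁻ x in ball (0 : E n) R, ENNReal.ofReal (‖ft (modulated r θ g ω) x‖ ^ 2) ≤
        ENNReal.ofReal (max C1 C2 * R) := by
      refine h4.trans (ENNReal.ofReal_le_ofReal ?_)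
      exact mul_le_mul_of_nonneg_right (le_max_right _ _) (by linarith)
    refine Pool.Agent.V1181.RMod.ball_Lp hp ?_ ?_ h5
    · have : 0 ≤ max C1 C2 := hC1.le.trans (le_max_left _ _)
      positivity
    · intro ξ hξ
      exact hsup ξ (hξ.le.trans hRK)
  have hlaw : IsProbabilityMeasure (law n m) := by
    unfold law
    infer_instance
  calc law n m {ω | ¬ Bounds (max C1 C2) K r t (modulated r θ g ω)}
      ≤ law n m {ω | ∃ ξ : E n, ‖ξ‖ ≤ r ^ (max K 0) ∧
        C1 * (t + Real.log r) * β < ‖ft (modulated r θ g ω) ξ‖} := measure_mono hsub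
    _ = ENNReal.ofReal ((law n m).real {ω | ∃ ξ : E n, ‖ξ‖ ≤ r ^ (max K 0) ∧
        C1 * (t + Real.log r) * β < ‖ft (modulated r θ g ω) ξ‖}) := by
        rw [measureReal_def, ENNReal.ofReal_toReal (measure_ne_top _ _)]
    _ ≤ ENNReal.ofReal (Real.exp (-t)) := ENNReal.ofReal_le_ofReal h3

end Pool.Agent.Results.MP_6cbfb8_an.RandomModulations
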