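import Pool.Agent.V11313.RP.Mix
import Pool.Agent.V11313.RP.Pack

/-!
# Stein's restriction conjecture: random wave packets which meet a curve of finite order

Let `γ : ℝ → ℝ^n`, `n ≥ 3`, be a continuous curve such that, for every direction `ν ≠ 0`, almost every
hyperplane orthogonal to `ν` meets the curve at most `N` times (a point, a line, a polygon,
parametrised arcs of real algebraic curves, the moment curve, ...); no smoothness, curvature or
boundedness is assumed.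

Consider caps of the unit sphere with centres `v_1, …, v_m`, any two of which are at distance `≥ r`,
and on each cap a finite number of wave packets `e^{2πi⟨a, x⟩} F(x)`, with arbitrary translations
`a = a_{jk} ∈ ℝ^n`.  The function `F = F_{jk}` may be different for every packet; it is

* a superposition of bounded mass of Gaussians `e^{-s |x - w|² / (2 r²)}` with `s ≥ 1`, `|w| = 1` and
  `|w - v_j| ≤ B r` (for instance `e^{-|x - v_j|² / (2 r²)}`), or
* a bounded function with `|(F dσ)^(ξ)| ≤ B (r² / max (1, r² |ξ|, r |ξ - ⟨ξ, v_j⟩ v_j|))^{(n-1)/2}`, or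
* if `n = 3`, an arbitrary envelope `F = f μ` of bounded complexity: `0 ≤ f(x) ≤
  B (1 + |x - v_j|² / r²)⁻²`, the superlevel sets of `f` meet the open great semicircles in at most
  `B` arcs, `|μ| ≤ 1` and the variation of `μ` on them is at most `B` (for instance indicator
  functions of spherically convex subsets of the caps).

The Fourier transform of a wave packet is concentrated on the tube of length `r⁻²` and radius `r⁻¹`
with centre `a_{jk}` and direction `v_j`.  The only condition on the tubes is that a dilate of each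
of them meets the curve.

The coefficients are `± c_{jk}`, with random signs and `∑_k |c_{jk}|² ≤ 1` for every cap, as for the
wave packet expansion of a function bounded by `1`.

For these functions the average of `‖(g dσ)^‖_q^q` is bounded, in the full range `q > 2n/(n-1)` of the
conjecture, by `C r^{(n-1)(q - 2n/(n-1))/2} (r^{n-1} m)^{q/2 - 1/(n-1)}` up to a power of `log (1/r)`,
uniformly over all curves of order `N`.
-/

set_option autoImplicit false

namespace Pool.Agent.Results.MP_6cbfb8_an.RandomPacketsThroughCurve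

open MeasureTheory Metric Set
open scoped ENNReal NNReal RealInnerProductSpace

/-- The space `ℝ^n`. -/
abbrev Rn (n : ℕ) : Type := EuclideanSpace ℝ (Fin n)

/-- Surface measure on the unit sphere of `ℝ^n`. -/
noncomputable def sigma (n : ℕ) : Measure (sphere (0 : Rn n) 1) := (volume : Measure (Rn n)).toSphere

/-- The Fourier transform of the measure `g dσ`. -/
noncomputable def ft {n : ℕ} (g : sphere (0 : Rn n) 1 → ℂ) (ξ : Rn n) : ℂ :=
  ∫ x, Complex.exp (-(2 * Real.pi * ⟪(x : Rn n), ξ⟫ : ℝ) * Complex.I) * g x ∂(sigma n)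

/-- The curve `γ` is of order at most `N`: for every direction `ν ≠ 0`, almost every hyperplane
orthogonal to `ν` meets the curve at most `N` times. -/
def OrderLE {n : ℕ} (N : ℕ) (γ : ℝ → Rn n) : Prop :=
  ∀ ν : Rn n, ν ≠ 0 → ∀ᵐ c : ℝ, {u : ℝ | ⟪ν, γ u⟫ = c}.encard ≤ N

/-- The closed cylinder of length `2 L` and radius `ρ` around the segment with centre `a` and
direction `v` contains a point of the curve `γ`. -/
def Meets {n : ℕ} (L ρ : ℝ) (a v : Rn n) (γ : ℝ → Rn n) : Prop :=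
  ∃ u : ℝ, |⟪γ u - a, v⟫| ≤ L ∧ ‖(γ u - a) - (⟪γ u - a, v⟫ : ℝ) • v‖ ≤ ρ

/-- `ω` and `v` are orthogonal unit vectors. -/
def Frame {n : ℕ} (ω v : Rn n) : Prop := ‖ω‖ = 1 ∧ ‖v‖ = 1 ∧ ⟪ω, v⟫ = 0

/-- The point at the angle `θ` on the great semicircle from `ω` through `v` to `-ω`. -/
noncomputable def arc {n : ℕ} (ω v : Rn n) (θ : ℝ) : Rn n := Real.cos θ • ω + Real.sin θ • v

/-- The set `E` meets every open great semicircle in at most `B` arcs. -/
def Arcs {n : ℕ} (B : ℕ) (E : Set (Rn n)) : Prop :=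
  ∀ ω v : Rn n, Frame ω v → ∃ I : Fin B → Set ℝ, (∀ i, (I i).OrdConnected) ∧
    {θ | θ ∈ Ioo 0 Real.pi ∧ arc ω v θ ∈ E} = ⋃ i, I i

/-- `f μ` is an envelope of complexity at most `B` at the cap with centre `v` and radius `r`
(only the values on the sphere are used). -/
structure Envelope {n : ℕ} (B : ℕ) (r : ℝ) (v : Rn n) (f : Rn n → ℝ≥0) (μ : Rn n → ℂ) : Prop where
  meas_f : Measurable f
  meas_m : Measurable μ
  bound_m : ∀ x, ‖μ x‖ ≤ 1
  size_f : ∀ x, (f x : ℝ) ≤ B / (1 + (‖x - v‖ / r) ^ 2) ^ 2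
  arcs_f : ∀ s : ℝ≥0, Arcs B {x | s < f x}
  var_m : ∀ ω u : Rn n, Frame ω u → eVariationOn (fun θ => μ (arc ω u θ)) (Ioo 0 Real.pi) ≤ B

/-- The Gaussian with centre `w` and radius `r / √s`. -/
noncomputable def gauss {n : ℕ} (r s : ℝ) (w x : Rn n) : ℝ :=
  Real.exp (-(s * ‖x - w‖ ^ 2) / (2 * r ^ 2))

/-- `F` is a superposition `∫ h(s, w) e^{-s |x - w|² / (2 r²)} dν(s, w)` of Gaussians, where the total
mass of the measure `ν` is at most `B`, `|h| ≤ 1` and `h(s, w) = 0` unless `s ≥ 1`, `|w| = 1` and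
`|w - v| ≤ B r`. -/
def Superposition {n : ℕ} (B : ℕ) (r : ℝ) (v : Rn n) (F : Rn n → ℂ) : Prop :=
  ∃ (ν : Measure (ℝ × Rn n)) (h : ℝ × Rn n → ℂ), ν univ ≤ B ∧ Measurable h ∧ (∀ p, ‖h p‖ ≤ 1) ∧
    (∀ s w, h (s, w) ≠ 0 → 1 ≤ s ∧ ‖w‖ = 1 ∧ ‖w - v‖ ≤ B * r) ∧
    F = fun x => ∫ p, h p * gauss r p.1 p.2 x ∂ν

/-- `F` is bounded and measurable and
`|(F dσ)^(ξ)| ≤ B (r² / max (1, r² |ξ|, r |ξ - ⟨ξ, v⟩ v|))^{(n-1)/2}` for all `ξ`. -/
def Decaying {n : ℕ} (B : ℕ) (r : ℝ) (v : Rn n) (F : Rn n → ℂ) : Prop :=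
  Measurable F ∧ (∃ M : ℝ, ∀ x, ‖F x‖ ≤ M) ∧ ∀ ξ : Rn n, ‖ft (fun x => F x) ξ‖ ≤
    B * (r ^ 2 / max 1 (max (r ^ 2 * ‖ξ‖) (r * ‖ξ - (⟪ξ, v⟫ : ℝ) • v‖))) ^ (((n : ℝ) - 1) / 2)

/-- `F` is a superposition of Gaussians at the cap with centre `v` and radius `r`, or the Fourier
transform of `F dσ` decays as described above, or `n = 3` and `F` is an envelope of complexity at
most `B`. -/
def Admissible {n : ℕ} (B : ℕ) (r : ℝ) (v : Rn n) (F : Rn n → ℂ) : Prop :=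
  Superposition B r v F ∨ Decaying B r v F ∨
    n = 3 ∧ ∃ (f : Rn n → ℝ≥0) (μ : Rn n → ℂ), Envelope B r v f μ ∧ F = fun x => ((f x : ℝ≥0) : ℂ) * μ x

/-- The wave packet `e^{2πi⟨a, x⟩} F(x)`. -/
noncomputable def packet {n : ℕ} (F : Rn n → ℂ) (a : Rn n) (x : sphere (0 : Rn n) 1) : ℂ :=
  Complex.exp ((2 * Real.pi * ⟪a, (x : Rn n)⟫ : ℝ) * Complex.I) * F x

/-- The sign given by a boolean. -/
def sign (b : Bool) : ℝ := if b then 1 else -1

/-- The superposition of the wave packets, with coefficients `c` and signs `ε`. -/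
noncomputable def packets {n m K : ℕ} (F : Fin m → Fin K → Rn n → ℂ) (a : Fin m → Fin K → Rn n)
    (c : Fin m → Fin K → ℂ) (ε : Fin m × Fin K → Bool) (x : sphere (0 : Rn n) 1) : ℂ :=
  ∑ j, ∑ k, (sign (ε (j, k)) : ℂ) * (c j k * packet (F j k) (a j k) x)

/-! ### Proofs -/

open Pool.Agent.V11313.RP (Env ev ev_meas weights Zt Zt_pk)
open Pool.Agent.V11313.RP.ND (Ed Pk qx square gb Mix mx mx_meas mx_norm mx_pk)
open Pool.Agent.H789R2.FR (sg T)

lemma T_meas {n : ℕ} {g : Rn n → ℂ} (hg : Measurable g) : Measurable (T g) := by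
  have := Pool.Agent.H789R2.FR.sg_finite n
  have : StronglyMeasurable (fun z : Rn n × Rn n =>
      Complex.exp (-((⟪z.1, z.2⟫ : ℝ) : ℂ) * Complex.I) * g z.2) := by
    apply Measurable.stronglyMeasurable
    have h1 : Continuous (fun z : Rn n × Rn n =>
      Complex.exp (-((⟪z.1, z.2⟫ : ℝ) : ℂ) * Complex.I)) := by fun_prop
    exact h1.measurable.mul (hg.comp measurable_snd)
  exact (this.integral_prod_right' (ν := sg n)).measurable

lemma gauss_eq {n : ℕ} (r s : ℝ) (w x : Rn n) : ((gauss r s w x : ℝ) : ℂ) = gb (s / r ^ 2) w x := by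
  rw [gauss, gb, norm_sub_rev]
  congr 2
  ring

lemma mix_of {n B : ℕ} {r : ℝ} {v : Rn n} {F : Rn n → ℂ} (h : Superposition B r v F) :
    ∃ (ν : Measure (ℝ × Rn n)) (h : ℝ × Rn n → ℂ), Mix B r v ν h ∧ F = mx r ν h := by
  obtain ⟨ν, h, h1, h2, h3, h4, h5⟩ := h
  refine ⟨ν, h, ⟨h1, h2, h3, fun p hp => h4 p.1 p.2 hp⟩, ?_⟩
  rw [h5]
  ext x
  simp only [gauss_eq, mx]

/-- change of the frequency -/
lemma qx_shift {d : ℕ} {r : ℝ} (hr : 0 < r) (v a ξ : Rn (d + 1)) :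
    qx r a v ξ ≤ qx r 0 v ((2 * Real.pi) • (ξ - a)) := by
  have h2pi : 1 ≤ 2 * Real.pi := by linarith [Real.pi_gt_three]
  have h0 : ∀ t : ℝ, 0 ≤ t → t ≤ 2 * Real.pi * t := fun t ht => by nlinarith
  unfold qx
  have e1 : (2 * Real.pi) • (ξ - a) - (⟪(2 * Real.pi) • (ξ - a), v⟫ : ℝ) • v =
      (2 * Real.pi) • ((ξ - a) - (⟪ξ - a, v⟫ : ℝ) • v) := by
    rw [real_inner_smul_left, smul_sub (2 * Real.pi) (ξ - a), smul_smul]
  rw [sub_zero, e1, norm_smul, norm_smul, Real.norm_of_nonneg (by positivity : 0 ≤ 2 * Real.pi)]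
  gcongr
  · exact h0 _ (norm_nonneg _)
  · exact h0 _ (norm_nonneg _)

lemma env_of {B : ℕ} {r : ℝ} {v : Rn 3} (hv : ‖v‖ = 1) {f : Rn 3 → ℝ≥0} {μ : Rn 3 → ℂ}
    (h : Envelope B r v f μ) : Env B B (2 / r ^ 2) v f μ := by
  have hB : (0 : ℝ) ≤ B := Nat.cast_nonneg B
  refine ⟨h.meas_f, h.meas_m, h.bound_m, fun x => ?_, fun x hx => ?_,
    fun s ω u h1 h2 h3 => h.arcs_f s ω u ⟨h1, h2, h3⟩, fun ω u h1 h2 h3 => h.var_m ω u ⟨h1, h2, h3⟩⟩
  · exact (h.size_f x).trans (div_le_self hB (one_le_pow₀ (by nlinarith [sq_nonneg (‖x - v‖ / r)])))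
  · have h1 : ‖x - v‖ ^ 2 = 2 * (1 - ⟪v, x⟫) := by
      rw [norm_sub_sq_real, hx, hv, real_inner_comm]
      ring
    have h2 : 2 / r ^ 2 * (1 - ⟪v, x⟫) = (‖x - v‖ / r) ^ 2 := by
      rw [div_pow, h1]; ring
    rw [h2]
    exact h.size_f x

lemma adm_meas {n B : ℕ} {r : ℝ} {v : Rn n} {F : Rn n → ℂ} (h : Admissible B r v F) :
    Measurable F := by
  rcases h with h | h | ⟨-, f, μ, h, h'⟩
  · obtain ⟨ν, h, hM, rfl⟩ := mix_of h
    exact mx_meas hM
  · exact h.1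
  · rw [h']
    exact (Complex.measurable_ofReal.comp (measurable_coe_nnreal_real.comp h.meas_f)).mul h.meas_m

lemma adm_norm {n B : ℕ} {r : ℝ} {v : Rn n} {F : Rn n → ℂ} (h : Admissible B r v F) :
    ∃ M : ℝ, ∀ x, ‖F x‖ ≤ M := by
  have hB : (0 : ℝ) ≤ B := Nat.cast_nonneg B
  rcases h with h | h | ⟨-, f, μ, h, h'⟩
  · obtain ⟨ν, h, hM, rfl⟩ := mix_of h
    exact ⟨B, fun x => mx_norm hM x⟩
  · exact h.2.1
  · rw [h']
    refine ⟨B, fun x => ?_⟩
    rw [norm_mul, Complex.norm_real, Real.norm_of_nonneg (NNReal.coe_nonneg _)]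
    refine (mul_le_of_le_one_right (NNReal.coe_nonneg _) (h.bound_m x)).trans
      ((h.size_f x).trans ?_)
    exact div_le_self hB (one_le_pow₀ (by nlinarith [sq_nonneg (‖x - v‖ / r)]))

lemma ft_packet {n : ℕ} {F : Rn n → ℂ} (hF : Measurable F) (a ξ : Rn n) :
    ft (packet F a) ξ = T F ((2 * Real.pi) • (ξ - a)) := by
  unfold ft T
  have m1 : Measurable fun w : Rn n =>
      Complex.exp (-((⟪(2 * Real.pi) • (ξ - a), w⟫ : ℝ) : ℂ) * Complex.I) * F w := by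
    have h2 : Continuous fun w : Rn n =>
      Complex.exp (-((⟪(2 * Real.pi) • (ξ - a), w⟫ : ℝ) : ℂ) * Complex.I) := by fun_prop
    exact h2.measurable.mul hF
  simp only [sg]
  rw [integral_map measurable_subtype_coe.aemeasurable m1.aestronglyMeasurable]
  refine integral_congr_ae (Filter.Eventually.of_forall fun x => ?_)
  simp only [packet]
  rw [← mul_assoc, ← Complex.exp_add, real_inner_smul_left, inner_sub_left, real_inner_comm ξ]
  congr 2
  push_cast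
  ring

/-- the pointwise bound -/
lemma adm_pk (d B : ℕ) (hd : 2 ≤ d) : ∃ C : ℝ, 0 < C ∧ ∀ r : ℝ, 0 < r → ∀ v a : Rn (d + 1),
    ‖v‖ = 1 → ∀ F : Rn (d + 1) → ℂ, Admissible B r v F →
    Pk C r a v (fun ξ => T F ((2 * Real.pi) • (ξ - a))) := by
  obtain ⟨C', hC', H⟩ := mx_pk d (by omega)
  have hB0 : (0 : ℝ) ≤ B := Nat.cast_nonneg B
  set C : ℝ := (1 + B) ^ (d + 1) * C' with hCd
  have hC : 0 < C := by positivity
  set C₀ : ℝ := 4 * Real.pi ^ 3 * (B + 1) ^ 2 with hC₀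
  have hC₀0 : 0 < C₀ := by positivity
  have hBC : (B : ℝ) ≤ C₀ := by
    have h1 : (B : ℝ) ≤ (B + 1) ^ 2 := by nlinarith
    have h2 : 1 ≤ 4 * Real.pi ^ 3 := by
      have h3 : (1 : ℝ) ≤ Real.pi ^ 3 := one_le_pow₀ (by linarith [Real.pi_gt_three])
      linarith
    rw [hC₀]
    nlinarith [sq_nonneg ((B : ℝ) + 1)]
  refine ⟨C + C₀, by positivity, fun r hr v a hv F hF => ?_⟩
  rcases hF with h | h | ⟨h3, f, μ, h, h'⟩
  · intro ξ
    obtain ⟨ν, g, hM, rfl⟩ := mix_of h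
    have h1 := H r B hr v ((2 * Real.pi) • (ξ - a)) ν g hv hM
    have h2 := qx_shift hr v a ξ
    have hq : 0 ≤ qx r a v ξ := zero_le_one.trans (le_max_left _ _)
    calc ‖T (mx r ν g) ((2 * Real.pi) • (ξ - a))‖ ^ 2 * qx r a v ξ ^ d
        ≤ ‖T (mx r ν g) ((2 * Real.pi) • (ξ - a))‖ ^ 2 *
          qx r 0 v ((2 * Real.pi) • (ξ - a)) ^ d := by gcongr
      _ ≤ (B ^ 2 * (1 + B) ^ d) * (C' * r ^ d) ^ 2 := h1
      _ ≤ ((1 + B) ^ 2 * (1 + B) ^ (2 * d)) * (C' * r ^ d) ^ 2 := by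
          have h3 : (B : ℝ) ^ 2 ≤ (1 + B) ^ 2 := by gcongr; linarith
          have h4 : (1 + (B : ℝ)) ^ d ≤ (1 + B) ^ (2 * d) :=
            pow_le_pow_right₀ (by linarith) (by omega)
          gcongr
      _ = (C * r ^ d) ^ 2 := by rw [hCd]; ring
      _ ≤ ((C + C₀) * r ^ d) ^ 2 := by
          gcongr
          linarith
  · intro ξ
    have hq1 : 1 ≤ qx r a v ξ := le_max_left _ _
    have hq : 0 < qx r a v ξ := by linarith
    have h1 := h.2.2 (ξ - a)
    have e1 : ft (fun x => F x) (ξ - a) = T F ((2 * Real.pi) • (ξ - a)) := by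
      have h2 := ft_packet h.1 0 (ξ - a)
      rw [sub_zero] at h2
      rw [← h2]
      congr 1
      ext x
      simp [packet]
    have e2 : max 1 (max (r ^ 2 * ‖ξ - a‖) (r * ‖(ξ - a) - (⟪ξ - a, v⟫ : ℝ) • v‖)) = qx r a v ξ := by
      unfold qx
      rw [mul_comm (r ^ 2), mul_comm r]
    have e3 : ((((d + 1 : ℕ) : ℝ) - 1) / 2) = (d : ℝ) / 2 := by push_cast; ring
    rw [e1, e2, e3] at h1
    have h2 : ((r ^ 2 / qx r a v ξ) ^ ((d : ℝ) / 2)) ^ 2 = (r ^ 2 / qx r a v ξ) ^ d := by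
      rw [← Real.rpow_natCast, ← Real.rpow_mul (by positivity), ← Real.rpow_natCast _ d]
      congr 1
      push_cast
      ring
    calc ‖T F ((2 * Real.pi) • (ξ - a))‖ ^ 2 * qx r a v ξ ^ d
        ≤ (B * (r ^ 2 / qx r a v ξ) ^ ((d : ℝ) / 2)) ^ 2 * qx r a v ξ ^ d := by gcongr
      _ = (B * r ^ d) ^ 2 := by
          rw [mul_pow, h2, div_pow]
          field_simp
          ring
      _ ≤ ((C + C₀) * r ^ d) ^ 2 := by
          gcongr
          linarith
  · obtain rfl : d = 2 := by omega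
    rw [h']
    intro ξ
    have h1 := Zt_pk hr (env_of hv h) hv a
    have h2 : ‖T (fun x => ((f x : ℝ≥0) : ℂ) * μ x) ((2 * Real.pi) • (ξ - a))‖ * qx r a v ξ ≤
        C₀ * r ^ 2 := by
      have h3 := h1.fa ξ
      have h4 := h1.fb ξ
      have h5 := h1.fc ξ
      have e : Zt f μ a ξ = T (fun x => ((f x : ℝ≥0) : ℂ) * μ x) ((2 * Real.pi) • (ξ - a)) := rfl
      rw [e, ← hC₀] at h3 h4 h5
      unfold qx
      rw [mul_max_of_nonneg _ _ (norm_nonneg _), mul_max_of_nonneg _ _ (norm_nonneg _)]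
      refine max_le (by rw [mul_one]; exact h3) (max_le ?_ ?_)
      · nlinarith [mul_le_mul_of_nonneg_right h4 (sq_nonneg r)]
      · nlinarith [mul_le_mul_of_nonneg_right h5 hr.le]
    have hq : 0 ≤ qx r a v ξ := zero_le_one.trans (le_max_left _ _)
    calc _ = (‖T (fun x => ((f x : ℝ≥0) : ℂ) * μ x) ((2 * Real.pi) • (ξ - a))‖ *
          qx r a v ξ) ^ 2 := by ring
      _ ≤ (C₀ * r ^ 2) ^ 2 := pow_le_pow_left₀ (by positivity) h2 2
      _ ≤ _ := by
        gcongr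
        linarith

lemma ft_packets {n m K : ℕ} {F : Fin m → Fin K → Rn n → ℂ} (hF : ∀ j k, Measurable (F j k))
    (hM : ∀ j k, ∃ M : ℝ, ∀ x, ‖F j k x‖ ≤ M) (a : Fin m → Fin K → Rn n)
    (c : Fin m → Fin K → ℂ) (ε : Fin m × Fin K → Bool) (ξ : Rn n) :
    ft (packets F a c ε) ξ =
      ∑ i : Fin m × Fin K, (sign (ε i) : ℂ) *
        (c i.1 i.2 * T (F i.1 i.2) ((2 * Real.pi) • (ξ - a i.1 i.2))) := by
  have : IsFiniteMeasure (sigma n) := by unfold sigma; infer_instance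
  set e : sphere (0 : Rn n) 1 → ℂ := fun x =>
    Complex.exp (-(2 * Real.pi * ⟪(x : Rn n), ξ⟫ : ℝ) * Complex.I) with he
  have hec : Continuous e := by simp only [he]; fun_prop
  have hen : ∀ x, ‖e x‖ = 1 := fun x => by
    simp only [he]
    rw [show -((2 * Real.pi * ⟪(x : Rn n), ξ⟫ : ℝ) : ℂ) * Complex.I =
      ((-(2 * Real.pi * ⟪(x : Rn n), ξ⟫) : ℝ) : ℂ) * Complex.I by push_cast; ring,
      Complex.norm_exp_ofReal_mul_I]
  have hpm : ∀ i : Fin m × Fin K, Measurable (packet (F i.1 i.2) (a i.1 i.2)) := by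
    intro i
    have h2 : Continuous fun x : sphere (0 : Rn n) 1 =>
      Complex.exp ((2 * Real.pi * ⟪a i.1 i.2, (x : Rn n)⟫ : ℝ) * Complex.I) := by fun_prop
    exact h2.measurable.mul ((hF _ _).comp measurable_subtype_coe)
  have hint : ∀ i : Fin m × Fin K, Integrable (fun x => e x *
      packet (F i.1 i.2) (a i.1 i.2) x) (sigma n) := by
    intro i
    obtain ⟨M, hM⟩ := hM i.1 i.2
    refine Integrable.of_bound (C := M)
      (hec.measurable.mul (hpm i)).aestronglyMeasurable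
      (Filter.Eventually.of_forall fun x => ?_)
    rw [norm_mul, hen, one_mul, packet, norm_mul, Complex.norm_exp_ofReal_mul_I, one_mul]
    exact hM _
  have h1 : ∀ x, e x * packets F a c ε x = ∑ i : Fin m × Fin K,
      ((sign (ε i) : ℂ) * c i.1 i.2) * (e x * packet (F i.1 i.2) (a i.1 i.2) x) := by
    intro x
    rw [packets, ← Fintype.sum_prod_type' (f := fun j k => (sign (ε (j, k)) : ℂ) *
      (c j k * packet (F j k) (a j k) x)), Finset.mul_sum]
    refine Finset.sum_congr rfl fun i _ => ?_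
    ring
  have h2 : ft (packets F a c ε) ξ = ∫ x, e x * packets F a c ε x ∂(sigma n) := rfl
  rw [h2]
  simp only [h1]
  rw [integral_finsetSum _ fun i _ => (hint i).const_mul _]
  refine Finset.sum_congr rfl fun i _ => ?_
  rw [integral_const_mul, ← ft_packet (hF _ _), mul_assoc]
  rfl

/-- **Random wave packets which meet a curve of finite order.**  Let `n ≥ 3`, `q > 2n/(n-1)`, `A` and
`B` be given.  There is a constant `C` such that for all curves `γ` of order at most `N`, all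
`0 < r < 1`, all finite families of caps whose centres are at distances `≥ r`, all finite families of
wave packets on the caps (with admissible functions) whose tubes (dilated by `A`) meet the curve, and
all coefficients with `∑_k |c_{jk}|² ≤ 1` on every cap, the
average over the signs of `‖(g dσ)^‖_q^q` is at most
`C W^{1/(n-1)} r^{(n-1)(q - 2n/(n-1))/2} (r^{n-1} m)^{q/2 - 1/(n-1)}`,
`W = (N+1) (1 + log(N+1))² (1 + log(1/r))^{n+2}`. -/
theorem result (n : ℕ) (hn : 3 ≤ n) (q : ℝ) (hq : 2 * (n : ℝ) / (n - 1) < q) (A : ℝ) (B : ℕ) :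
    ∃ C : ℝ, 0 < C ∧
    ∀ (N : ℕ) (γ : ℝ → Rn n), Continuous γ → OrderLE N γ →
    ∀ r : ℝ, 0 < r → r < 1 →
    ∀ (m K : ℕ) (v : Fin m → Rn n) (a : Fin m → Fin K → Rn n) (c : Fin m → Fin K → ℂ)
      (F : Fin m → Fin K → Rn n → ℂ),
    (∀ j, ‖v j‖ = 1) → (∀ i j, i ≠ j → r ≤ ‖v i - v j‖) →
    (∀ j k, Admissible B r (v j) (F j k)) →
    (∀ j k, Meets (A / r ^ 2) (A / r) (a j k) (v j) γ) → (∀ j, ∑ k, ‖c j k‖ ^ 2 ≤ 1) →
    ((2 : ℝ≥0∞) ^ (m * K))⁻¹ * ∑ ε : Fin m × Fin K → Bool,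
        ∫⁻ ξ, ‖ft (packets F a c ε) ξ‖ₑ ^ q ≤
      ENNReal.ofReal (C * ((N + 1) * (1 + Real.log (N + 1)) ^ 2 *
          (1 + Real.log (1 / r)) ^ (n + 2)) ^ (1 / ((n : ℝ) - 1)) *
        r ^ (((n : ℝ) - 1) / 2 * (q - 2 * (n : ℝ) / (n - 1))) *
        (r ^ (n - 1) * m) ^ (q / 2 - 1 / ((n : ℝ) - 1))) := by
  obtain ⟨d, rfl⟩ : ∃ d, n = d + 1 := ⟨n - 1, by omega⟩
  have hd : 2 ≤ d := by omega
  have hd0 : (0 : ℝ) < d := by
    have : 0 < d := by omega
    exact_mod_cast this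
  have ed : (((d + 1 : ℕ) : ℝ) - 1) = d := by push_cast; ring
  have ed2 : (d + 1 - 1 : ℕ) = d := by omega
  have ed3 : 2 * (((d + 1 : ℕ) : ℝ)) / d = 2 * ((d : ℝ) + 1) / d := by push_cast; ring
  rw [ed, ed2, ed3]
  rw [ed, ed3] at hq
  obtain ⟨C₀, hC₀, hpk⟩ := adm_pk d B hd
  obtain ⟨C, hC, hsq⟩ := square (A := A) hd hq hC₀
  have hK1 : 0 ≤ max (Pool.Agent.H728R3.SR.K1 q) 1 := le_trans zero_le_one (le_max_right _ _)
  refine ⟨max (Pool.Agent.H728R3.SR.K1 q) 1 * C, by positivity, ?_⟩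
  intro N γ hγ hN r hr hr1 m K v a c F hv hsep hadm hmeet hc
  have hW := Pool.Agent.V11313.CT.one_le_W (d := d) (N := N) hr hr1
  have hWe : Pool.Agent.V11313.CT.W d N r = (N + 1) * (1 + Real.log (N + 1)) ^ 2 *
      (1 + Real.log (1 / r)) ^ (d + 1 + 2) := rfl
  rw [hWe] at hW
  set W : ℝ := (N + 1) * (1 + Real.log (N + 1)) ^ 2 * (1 + Real.log (1 / r)) ^ (d + 1 + 2) with hWd
  have hW0 : 0 ≤ W := by linarith
  have hq0 : 0 < q := by
    have : 0 < 2 * ((d : ℝ) + 1) / d := by positivity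
    linarith
  set Z : Fin m → Fin K → Rn (d + 1) → ℂ := fun j k ξ => T (F j k) ((2 * Real.pi) • (ξ - a j k))
    with hZ
  have hFm : ∀ j k, Measurable (F j k) := fun j k => adm_meas (hadm j k)
  have hFb : ∀ j k, ∃ M : ℝ, ∀ x, ‖F j k x‖ ≤ M := fun j k => adm_norm (hadm j k)
  have hZm : ∀ j k, Measurable (Z j k) := fun j k =>
    (T_meas (hFm j k)).comp ((measurable_id.sub_const (a j k)).const_smul (2 * Real.pi))
  have hkh : ∀ ξ, ∑ ε : Fin m × Fin K → Bool, ‖ft (packets F a c ε) ξ‖ₑ ^ q ≤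
      2 ^ (m * K) * (ENNReal.ofReal (Pool.Agent.H728R3.SR.K1 q) *
        (∑ j, ∑ k, ‖c j k‖ₑ ^ 2 * ‖Z j k ξ‖ₑ ^ 2) ^ (q / 2)) := by
    intro ξ
    have h1 := Pool.Agent.H728R3.SR.khinchine q hq0
      (fun i : Fin m × Fin K => c i.1 i.2 * Z i.1 i.2 ξ)
    have h2 : ∑ i : Fin m × Fin K, ‖c i.1 i.2 * Z i.1 i.2 ξ‖ₑ ^ 2 =
        ∑ j, ∑ k, ‖c j k‖ₑ ^ 2 * ‖Z j k ξ‖ₑ ^ 2 := by
      rw [Fintype.sum_prod_type]
      simp only [enorm_mul, mul_pow]
    rw [h2, Fintype.card_prod, Fintype.card_fin, Fintype.card_fin] at h1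
    refine le_trans (le_of_eq ?_) h1
    refine Finset.sum_congr rfl fun ε _ => ?_
    rw [ft_packets hFm hFb]
    rfl
  have hmain : ∫⁻ ξ, (∑ j, ∑ k, ‖c j k‖ₑ ^ 2 * ‖Z j k ξ‖ₑ ^ 2) ^ (q / 2) ≤
      ENNReal.ofReal (C * W ^ (1 / (d : ℝ)) * (r ^ ((d : ℝ) / 2 * (q - 2 * ((d : ℝ) + 1) / d)) *
        (r ^ d * (m : ℝ)) ^ (q / 2 - 1 / (d : ℝ)))) := by
    rcases Nat.eq_zero_or_pos K with hK | hK
    · subst hK
      have h0 : ∀ ξ : Rn (d + 1),
          (∑ j, ∑ k : Fin 0, ‖c j k‖ₑ ^ 2 * ‖Z j k ξ‖ₑ ^ 2) ^ (q / 2) = 0 := by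
        intro ξ
        simp only [Finset.univ_eq_empty, Finset.sum_empty, Finset.sum_const_zero]
        exact ENNReal.zero_rpow_of_pos (by positivity)
      simp only [h0, lintegral_zero]
      exact zero_le
    obtain ⟨lam, hlam1, hlam2⟩ := weights hK c hc
    refine le_trans (lintegral_mono fun ξ => ?_) (hsq N γ hγ hN r hr hr1 m K a v Z hv hsep hmeet
      (fun j k => hpk r hr (v j) (a j k) (hv j) (F j k) (hadm j k)) lam hlam1)
    refine ENNReal.rpow_le_rpow (Finset.sum_le_sum fun j _ => Finset.sum_le_sum fun k _ => ?_)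
      (by positivity)
    exact mul_le_mul' (hlam2 j k) le_rfl
  have hSm : Measurable fun ξ => ∑ j, ∑ k, ‖c j k‖ₑ ^ 2 * ‖Z j k ξ‖ₑ ^ 2 :=
    Finset.measurable_sum _ fun j _ => Finset.measurable_sum _ fun k _ =>
      ((hZm j k).enorm.pow_const 2).const_mul _
  have hftm : ∀ ε : Fin m × Fin K → Bool, Measurable fun ξ => ‖ft (packets F a c ε) ξ‖ₑ ^ q := by
    intro ε
    have h1 : (fun ξ => ft (packets F a c ε) ξ) = fun ξ => ∑ i : Fin m × Fin K,
        (sign (ε i) : ℂ) * (c i.1 i.2 * Z i.1 i.2 ξ) :=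
      funext fun ξ => ft_packets hFm hFb a c ε ξ
    have h2 : Measurable fun ξ => ft (packets F a c ε) ξ := by
      rw [h1]
      exact Finset.measurable_sum _ fun i _ => ((hZm _ _).const_mul _).const_mul _
    exact h2.enorm.pow_const q
  rw [← lintegral_finsetSum _ fun ε _ => hftm ε]
  calc ((2 : ℝ≥0∞) ^ (m * K))⁻¹ * ∫⁻ ξ, ∑ ε : Fin m × Fin K → Bool,
        ‖ft (packets F a c ε) ξ‖ₑ ^ q
      ≤ ((2 : ℝ≥0∞) ^ (m * K))⁻¹ * ∫⁻ ξ, 2 ^ (m * K) * (ENNReal.ofReal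
          (Pool.Agent.H728R3.SR.K1 q) *
          (∑ j, ∑ k, ‖c j k‖ₑ ^ 2 * ‖Z j k ξ‖ₑ ^ 2) ^ (q / 2)) := by
        gcongr with ξ
        exact hkh ξ
    _ = ENNReal.ofReal (Pool.Agent.H728R3.SR.K1 q) *
          ∫⁻ ξ, (∑ j, ∑ k, ‖c j k‖ₑ ^ 2 * ‖Z j k ξ‖ₑ ^ 2) ^ (q / 2) := by
        rw [lintegral_const_mul _ ((hSm.pow_const _).const_mul _),
          lintegral_const_mul _ (hSm.pow_const _), ← mul_assoc,
          ENNReal.inv_mul_cancel (by simp) (by simp), one_mul]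
    _ ≤ ENNReal.ofReal (max (Pool.Agent.H728R3.SR.K1 q) 1) *
          ENNReal.ofReal (C * W ^ (1 / (d : ℝ)) *
            (r ^ ((d : ℝ) / 2 * (q - 2 * ((d : ℝ) + 1) / d)) *
            (r ^ d * (m : ℝ)) ^ (q / 2 - 1 / (d : ℝ)))) := by
        gcongr
        exact le_max_left _ _
    _ = _ := by
        rw [← ENNReal.ofReal_mul hK1]
        congr 1
        ring

end Pool.Agent.Results.MP_6cbfb8_an.RandomPacketsThroughCurve
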