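import Mathlib
import Pool.Agent.V1181.RSb
set_option autoImplicit false

/-!
# Stein's restriction conjecture: `L^p → L^q` estimates for random translations of the pieces

Let `f` be a function on the unit sphere of `ℝ^n`, `n ≥ 2`, and let `θ_1, …, θ_m` be disjoint
measurable sets of surface measure at most `A r^(-(n-1)/2)`, for instance caps of radius `r^(-1/2)`.
The Fourier transform of the measure `f 1_{θ_j} dσ` is translated by a random vector `y_j`; this
amounts to the multiplication of `f` by a character on `θ_j`. The vectors `y_j` are independent, with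
a common law which is supported in a ball of radius `B r` and has a density at most `B r^(-n)`, for
instance the uniform law in a ball of radius `r`. Let `2 ≤ p ≤ q < ∞`. We prove that the mean value
of `∫_{|ξ| < L} |∑_j (f 1_{θ_j} dσ)^(ξ - y_j)|^q dξ`, `L ≥ r`, is at most

`C L r^(- ((n-1)/2) (q - 1 - q/p)) ‖f‖_p^q`

with a constant which depends on `n, p, q, A, B` only. For `L = r` this gives the `L^p → L^q`
estimates in the full conjectured range `q ≥ 2n/(n-1)`, `q ≥ ((n+1)/(n-1)) p'`, with the endpoints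
and without any loss.

Proof: Rosenthal's inequality at each point `ξ`, and the Agmon-Hörmander inequality in balls of
radius about `r` and about `L`.
-/

namespace Pool.Agent.Results.MP_6cbfb8_an.RandomTranslations

open MeasureTheory Set Metric Complex
open scoped ENNReal RealInnerProductSpace

/-- `n`-dimensional space -/
abbrev E (n : ℕ) := EuclideanSpace ℝ (Fin n)

/-- surface measure of the unit sphere, as a measure on `ℝ^n` -/
noncomputable def sigma (n : ℕ) : Measure (E n) :=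
  ((volume : Measure (E n)).toSphere).map Subtype.val

/-- the Fourier transform of the measure `g dσ`: `ξ ↦ ∫ exp(-i ξ·x) g(x) dσ(x)` -/
noncomputable def ft {n : ℕ} (g : E n → ℂ) (ξ : E n) : ℂ :=
  ∫ x, Complex.exp (-((⟪ξ, x⟫ : ℝ) : ℂ) * I) * g x ∂(sigma n)

/-- the sum of the Fourier transforms of the pieces, the `j`-th one translated by `y j` -/
noncomputable def translated {n m : ℕ} (θ : Fin m → Set (E n)) (f : E n → ℂ) (y : Fin m → E n)
    (ξ : E n) : ℂ :=
  ∑ j, ft ((θ j).indicator f) (ξ - y j)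

/-- the mean value, for independent translations with the law `ρ`, of the integral over the ball
`|ξ| < L` of the `q`-th power of the absolute value -/
noncomputable def average {n m : ℕ} (q L : ℝ) (θ : Fin m → Set (E n)) (ρ : Measure (E n))
    (f : E n → ℂ) : ℝ≥0∞ :=
  ∫⁻ y, (∫⁻ ξ in ball (0 : E n) L, ‖translated θ f y ξ‖ₑ ^ q) ∂(Measure.pi fun _ => ρ)

/-- disjoint measurable sets of surface measure at most `A r^(-(n-1)/2)` -/
def Pieces {n m : ℕ} (A r : ℝ) (θ : Fin m → Set (E n)) : Prop :=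
  (∀ j, MeasurableSet (θ j)) ∧ (∀ i j, i ≠ j → Disjoint (θ i) (θ j)) ∧
    ∀ j, sigma n (θ j) ≤ ENNReal.ofReal (A * r ^ (-(((n : ℝ) - 1) / 2)))

/-- a probability measure supported in the ball of radius `B r`, with density at most `B r^(-n)` -/
def Spread {n : ℕ} (B r : ℝ) (ρ : Measure (E n)) : Prop :=
  IsProbabilityMeasure ρ ∧ ρ (closedBall 0 (B * r))ᶜ = 0 ∧
    ρ ≤ ENNReal.ofReal (B * r ^ (-(n : ℝ))) • (volume : Measure (E n))

theorem result (n : ℕ) (hn : 2 ≤ n) (A B p q : ℝ) (hp : 2 ≤ p) (hpq : p ≤ q) :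
    ∃ C : ℝ, 0 < C ∧ ∀ r : ℝ, 1 ≤ r → ∀ (m : ℕ) (θ : Fin m → Set (E n)) (ρ : Measure (E n))
      (f : E n → ℂ), Pieces A r θ → Spread B r ρ → Measurable f → (∃ M : ℝ, ∀ x, ‖f x‖ ≤ M) →
      (∀ L : ℝ, r ≤ L → average q L θ ρ f ≤
        ENNReal.ofReal (C * L * r ^ (-(((n : ℝ) - 1) / 2 * (q - 1 - q / p)))) *
          (∫⁻ x, ‖f x‖ₑ ^ p ∂(sigma n)) ^ (q / p)) ∧
      (2 / ((n : ℝ) - 1) ≤ q - 1 - q / p → average q r θ ρ f ≤
        ENNReal.ofReal C * (∫⁻ x, ‖f x‖ₑ ^ p ∂(sigma n)) ^ (q / p)) := by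
  obtain ⟨k, rfl⟩ : ∃ k, n = k + 1 := ⟨n - 1, by omega⟩
  have hk : 1 ≤ k := by omega
  have hcast : (((k + 1 : ℕ) : ℝ) - 1) = (k : ℝ) := by push_cast; ring
  have hcast2 : ((k + 1 : ℕ) : ℝ) = (k : ℝ) + 1 := by push_cast; ring
  rw [hcast]
  have hfin : IsFiniteMeasure (Pool.Agent.H789R2.FR.sg (k + 1)) :=
    Pool.Agent.H789R2.FR.sg_finite (k + 1)
  obtain ⟨C, hC0, hC⟩ := Pool.Agent.V1181.RS.ball_bound k hk A B p q hp hpq
  refine ⟨C, hC0, ?_⟩
  intro r hr m θ ρ f hθ hρ hf hM
  obtain ⟨hθ1, hθ2, hθ3⟩ := hθ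
  obtain ⟨hρ1, hρ2, hρ3⟩ := hρ
  rw [hcast] at hθ3
  rw [hcast2] at hρ3
  have hr0 : 0 < r := by linarith
  set P : ℝ≥0∞ := ∫⁻ x, ‖f x‖ₑ ^ p ∂(sigma (k + 1)) with hP
  set κ : ℝ := r ^ (-((k : ℝ) / 2 * (q - 1 - q / p))) with hκ
  have hκ0 : 0 < κ := by positivity
  have hft : ∀ j, Measurable (ft ((θ j).indicator f)) := by
    intro j
    have h1 := (Pool.Agent.H789R2.FR.L2.measurable_T ((θ j).indicator f)
      (hf.indicator (hθ1 j))).measurable
    exact h1
  have hmeas : Measurable fun z : (Fin m → E (k + 1)) × E (k + 1) =>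
      ‖translated θ f z.1 z.2‖ₑ ^ q := by
    unfold translated
    refine (Finset.measurable_sum _ fun j _ => ?_).enorm.pow_const q
    have h2 : Measurable fun z : (Fin m → E (k + 1)) × E (k + 1) => z.2 - z.1 j :=
      measurable_snd.sub ((measurable_pi_apply j).comp measurable_fst)
    have h3 := (hft j).comp h2
    exact h3
  have key : ∀ L : ℝ, r ≤ L → average q L θ ρ f ≤ ENNReal.ofReal (C * L * κ) * P ^ (q / p) := by
    intro L hL
    unfold average
    rw [lintegral_lintegral_swap hmeas.aemeasurable]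
    exact hC r hr L hL m θ hθ1 (fun i j hij => hθ2 i j hij) hθ3 ρ hρ2 hρ3 f hf hM
  refine ⟨key, ?_⟩
  intro hcond
  refine (key r le_rfl).trans ?_
  refine mul_le_mul_left (ENNReal.ofReal_le_ofReal ?_) _
  have hk0 : (0 : ℝ) < k := by exact_mod_cast hk
  have h1 : r * κ ≤ 1 := by
    rw [hκ]
    nth_rewrite 1 [← Real.rpow_one r]
    rw [← Real.rpow_add hr0]
    apply Real.rpow_le_one_of_one_le_of_nonpos hr
    have h2 : (k : ℝ) / 2 * (2 / k) ≤ (k : ℝ) / 2 * (q - 1 - q / p) :=
      mul_le_mul_of_nonneg_left hcond (by positivity)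
    have h3 : (k : ℝ) / 2 * (2 / k) = 1 := by field_simp
    linarith
  calc C * r * κ = C * (r * κ) := by ring
    _ ≤ C * 1 := mul_le_mul_of_nonneg_left h1 hC0.le
    _ = C := mul_one _

end Pool.Agent.Results.MP_6cbfb8_an.RandomTranslations
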